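import Mathlib
import Pool.Agent.MP_a59382_lc.Mg.V3_Dens

set_option autoImplicit false

namespace Pool.Agent.Results.MP_a59382_lc.BigRing

/-- For every `m` and every set `W` there is a set `S` of primes that agrees with `W` on the odd
primes outside the classes of plus and minus one modulo `2 ^ m`, and so outside a set of primes of
upper density at most `4 / 2 ^ m`, such that for every `M`, in the
ring of rationals whose denominators have all prime factors in `S`, one existentially quantified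
polynomial equation with integer coefficients defines the relation: `b` has a pole at every prime
congruent to one modulo `M` at which `a` has a pole. -/
theorem result (m : ℕ) (W : Set ℕ) :
    ∃ S : Set ℕ, (∀ p ∈ S, p.Prime) ∧
      (∀ p : ℕ, p.Prime → p ≠ 2 → ¬ p ≡ 1 [MOD 2 ^ m] → ¬ 2 ^ m ∣ p + 1 → (p ∈ S ↔ p ∈ W)) ∧
      (∀ δ : ℝ, 0 < δ → ∃ N₀ : ℕ, ∀ N : ℕ, N₀ ≤ N →
        ({p : ℕ | p ≤ N ∧ p.Prime ∧ ¬ (p ∈ S ↔ p ∈ W)}.ncard : ℝ) ≤
          (4 / 2 ^ m + δ) * Nat.primeCounting N) ∧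
      ∀ M : ℕ, ∃ (n : ℕ) (f : MvPolynomial (Fin 2 ⊕ Fin n) ℤ), ∀ a b : ℚ,
        (∀ p : ℕ, p.Prime → p ∣ a.den → p ∈ S) → (∀ p : ℕ, p.Prime → p ∣ b.den → p ∈ S) →
        ((∃ z : Fin n → ℚ, (∀ (i : Fin n) (p : ℕ), p.Prime → p ∣ (z i).den → p ∈ S) ∧
            MvPolynomial.aeval (Sum.elim ![a, b] z) f = 0) ↔
          ∀ p : ℕ, p.Prime → p ≡ 1 [MOD M] → padicValRat p a < 0 → padicValRat p b < 0) := by
  obtain ⟨S, h1, h2, h3⟩ := Pool.Agent.MP_a59382_lc.V3.main m W
  exact ⟨S, h1, h2, fun δ hδ =>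
    Filter.eventually_atTop.1 (Pool.Agent.MP_a59382_lc.V3Dens.dens m S W h2 hδ), h3⟩

end Pool.Agent.Results.MP_a59382_lc.BigRing
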