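import Mathlib
import Pool.Agent.MP_a59382_lc.Mg.H11_Rel

set_option autoImplicit false

namespace Pool.Agent.Results.MP_a59382_lc.FunctionField

open Pool.Agent.MP_a59382_lc.H11

/-- In every global function field `K`, a finite separable extension of `F(t)` with `F` finite,
and for every modulus `m`, one existentially quantified polynomial equation defines the relation:
`b` has a pole at every prime of the integral closure of `F[t]` in `K` that lies above a prime
polynomial of norm congruent to one modulo `m` and at which `a` has a pole. -/
theorem result :
    ∀ (F K : Type) [Field F] [Finite F] [Field K] [Algebra (Polynomial F) K]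
      [Algebra (RatFunc F) K] [IsScalarTower (Polynomial F) (RatFunc F) K]
      [FunctionField F K] [Algebra.IsSeparable (RatFunc F) K] (m : ℕ),
      ∃ (n : ℕ) (f : MvPolynomial (Fin 2 ⊕ Fin n) K), ∀ a b : K,
        (∃ z : Fin n → K, MvPolynomial.eval (Sum.elim ![a, b] z) f = 0) ↔
          ∀ v : IsDedekindDomain.HeightOneSpectrum (FunctionField.ringOfIntegers F K),
            (∃ P : Polynomial F, Irreducible P ∧ Nat.card F ^ P.natDegree ≡ 1 [MOD m] ∧
                algebraMap (Polynomial F) (FunctionField.ringOfIntegers F K) P ∈ v.asIdeal) →
              1 < v.valuation K a → 1 < v.valuation K b := by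
  intro F K _ _ _ _ _ _ _ _ m
  obtain ⟨n, f, h⟩ := (dio_pole_mod F K m).out
  exact ⟨n, f, fun a b => h ![a, b]⟩

end Pool.Agent.Results.MP_a59382_lc.FunctionField
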