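import Mathlib
import Pool.Agent.MP_a59382_lc.H18.Rec

set_option autoImplicit false

namespace Pool.Agent.Results.MP_a59382_lc.FunctionFieldDPRM

open Pool.Agent.MP_a59382_lc.H18

/-- Every global function field `K`, a finite separable extension of `F(t)` with `F` finite, has
the DPRM property: `K` has a listable presentation `ρ`, that is, an enumeration for which the
graphs of addition and multiplication are recursively enumerable, and for every such `ρ` a subset
of `K ^ m` is recursively enumerable for `ρ` if and only if it is defined in `K` by one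
existentially quantified polynomial equation. -/
theorem result :
    ∀ (F K : Type) [Field F] [Finite F] [Field K] [Algebra (Polynomial F) K]
      [Algebra (RatFunc F) K] [IsScalarTower (Polynomial F) (RatFunc F) K]
      [FunctionField F K] [Algebra.IsSeparable (RatFunc F) K],
      (∃ ρ : ℕ → K, Function.Surjective ρ ∧
        (REPred fun x : ℕ × ℕ × ℕ => ρ x.1 + ρ x.2.1 = ρ x.2.2) ∧
        (REPred fun x : ℕ × ℕ × ℕ => ρ x.1 * ρ x.2.1 = ρ x.2.2)) ∧
      ∀ ρ : ℕ → K, Function.Surjective ρ →
        (REPred fun x : ℕ × ℕ × ℕ => ρ x.1 + ρ x.2.1 = ρ x.2.2) →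
        (REPred fun x : ℕ × ℕ × ℕ => ρ x.1 * ρ x.2.1 = ρ x.2.2) →
        ∀ (m : ℕ) (S : Set (Fin m → K)),
          (REPred fun x : Fin m → ℕ => (fun s => ρ (x s)) ∈ S) ↔
            ∃ (n : ℕ) (f : MvPolynomial (Fin m ⊕ Fin n) K), ∀ a : Fin m → K,
              a ∈ S ↔ ∃ z : Fin n → K, MvPolynomial.eval (Sum.elim a z) f = 0 := by
  intro F K _ _ _ _ _ _ _ _
  refine ⟨pres_ext F K, fun ρ hs ha hm m S => ⟨fun h => ?_, ?_⟩⟩
  · obtain ⟨n, f, hf⟩ := dio_of_re F hs ha hm h
    exact ⟨n, f, fun a => (hf a).symm⟩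
  · rintro ⟨n, f, hf⟩
    have h : Dio K fun a : Fin m → K =>
        ∃ z : Fin n → K, MvPolynomial.eval (Sum.elim a z) f = 0 := by
      refine .ex (.eq ((pf_eval f).comp (.pi ?_)) (.const 0))
      rintro (s | s) <;> simp only [Sum.elim_inl, Sum.elim_inr] <;> fun_prop
    exact Pres.re ⟨hs, ha, hm⟩ (h.congr hf) (π := fun s (x : Fin m → ℕ) => x s) fun s =>
      Computable.fin_app.comp .id (.const s)

end Pool.Agent.Results.MP_a59382_lc.FunctionFieldDPRM
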