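import Pool.Agent.MP_a59382_lc.G2.Z4
import Pool.Agent.MP_a59382_lc.I87.FG

theorem Pool.Agent.Results.MP_a59382_lc.HilbertTenthCharP.result :
    ∀ (p : ℕ) (k K : Type) [Field k] [Fact p.Prime] [CharP k p] [Field K] [Algebra k K],
      (⊤ : IntermediateField k K).FG → ∀ t : K, Transcendental k t →
        ∀ S : ℕ → Prop, REPred S → ∃ (n : ℕ) (f : MvPolynomial (Fin 1 ⊕ Fin n) K),
          ∀ a : K, (∃ z : Fin n → K, MvPolynomial.eval (Sum.elim ![a] z) f = 0) ↔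
            ∃ j : ℕ, S j ∧ a = t ^ j :=
  Pool.Agent.I87.fg_row Pool.Agent.G2W.all_row
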